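import Pool.Agent.helper7.IG.Basic

/-!
# IG, module CO: the action of automorphisms on the components of `η ^ (-1)`
-/

set_option autoImplicit false

open Polynomial

noncomputable section

namespace Pool.Agent.helper7.IG

/-- The representative of `± m` modulo `2 ^ s`. -/
def co_rep (s : ℕ) (m : ℤ) : ℕ :=
  if m % 2 ^ s < 2 ^ (s - 1) then (m % 2 ^ s).toNat else (2 ^ s - m % 2 ^ s).toNat

lemma co_rep_spec (s : ℕ) (hs : 2 ≤ s) (m : ℤ) (hm : Odd m) :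
    co_rep s m ∈ reps s ∧
      ((co_rep s m : ℤ) ≡ m [ZMOD 2 ^ s] ∨ (co_rep s m : ℤ) ≡ -m [ZMOD 2 ^ s]) := by
  obtain ⟨t, rfl⟩ := Nat.exists_eq_add_of_le hs
  have h2s : (2 : ℤ) ^ (2 + t) = 4 * 2 ^ t := by rw [pow_add]; norm_num
  have h2s' : (2 : ℤ) ^ (2 + t - 1) = 2 * 2 ^ t := by
    rw [show 2 + t - 1 = 1 + t by omega, pow_add]; norm_num
  have h2n : (2 : ℕ) ^ (2 + t - 1) = 2 * 2 ^ t := by
    rw [show 2 + t - 1 = 1 + t by omega, pow_add]; norm_num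
  have hpos : (0 : ℤ) < 2 ^ t := by positivity
  have hposn : 0 < (2 : ℕ) ^ t := by positivity
  have hcast : ((2 : ℕ) ^ t : ℤ) = (2 : ℤ) ^ t := by push_cast; rfl
  unfold co_rep
  rw [h2s, h2s']
  set P : ℤ := 2 ^ t with hP
  have h0 : 0 ≤ m % (4 * P) := Int.emod_nonneg _ (by omega)
  have h1 : m % (4 * P) < 4 * P := Int.emod_lt_of_pos _ (by omega)
  have h3 : m % (4 * P) ≡ m [ZMOD 4 * P] := Int.mod_modEq m (4 * P)
  have h4 : (m % (4 * P)) % 2 = 1 := by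
    have h5 : (m % (4 * P)) % 2 = m % 2 := by
      rw [Int.emod_emod_of_dvd]
      exact ⟨2 * P, by ring⟩
    rw [h5]
    exact Int.odd_iff.mp hm
  set a := m % (4 * P) with ha
  have hred : ∀ n : ℕ, n ∈ reps (2 + t) ↔ (n : ℤ) < 2 * P ∧ (n : ℤ) % 2 = 1 := by
    intro n
    unfold reps
    rw [Finset.mem_filter, Finset.mem_range, h2n]
    constructor
    · rintro ⟨h6, h7⟩
      constructor
      · have : (n : ℤ) < ((2 * 2 ^ t : ℕ) : ℤ) := by exact_mod_cast h6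
        push_cast at this
        exact this
      · exact_mod_cast h7
    · rintro ⟨h6, h7⟩
      constructor
      · have : (n : ℤ) < ((2 * 2 ^ t : ℕ) : ℤ) := by push_cast; exact h6
        exact_mod_cast this
      · exact_mod_cast h7
  split_ifs with h
  · have h8 : ((a.toNat : ℕ) : ℤ) = a := Int.toNat_of_nonneg h0
    rw [hred, h8]
    exact ⟨⟨h, h4⟩, Or.inl h3⟩
  · have h8 : (((4 * P - a).toNat : ℕ) : ℤ) = 4 * P - a := Int.toNat_of_nonneg (by omega)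
    rw [hred, h8]
    refine ⟨⟨?_, by omega⟩, Or.inr ?_⟩
    · omega
    · have h9 : 4 * P - a ≡ 0 - m [ZMOD 4 * P] := by
        refine Int.ModEq.sub ?_ h3
        exact (Int.modEq_zero_iff_dvd.mpr (dvd_refl _))
      rwa [zero_sub] at h9

lemma co_unique (s : ℕ) (hs : 2 ≤ s) (r r' : ℕ) (hr : r ∈ reps s) (hr' : r' ∈ reps s)
    (h : (r : ℤ) ≡ r' [ZMOD 2 ^ s] ∨ (r : ℤ) ≡ -r' [ZMOD 2 ^ s]) : r = r' := by
  unfold reps at hr hr'
  rw [Finset.mem_filter, Finset.mem_range] at hr hr'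
  obtain ⟨t, rfl⟩ := Nat.exists_eq_add_of_le hs
  have h2s : (2 : ℤ) ^ (2 + t) = 4 * 2 ^ t := by rw [pow_add]; norm_num
  have h2n : (2 : ℕ) ^ (2 + t - 1) = 2 * 2 ^ t := by
    rw [show 2 + t - 1 = 1 + t by omega, pow_add]; norm_num
  rw [h2n] at hr hr'
  rw [h2s] at h
  have hr1 : (r : ℤ) < 2 * 2 ^ t := by exact_mod_cast hr.1
  have hr1' : (r' : ℤ) < 2 * 2 ^ t := by exact_mod_cast hr'.1
  have hr2 := hr.2
  have hr2' := hr'.2
  set P : ℤ := 2 ^ t with hP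
  rcases h with h | h
  · obtain ⟨k, hk⟩ := h.symm.dvd
    have : k = 0 := by
      by_contra hk0
      rcases lt_or_gt_of_ne hk0 with h1 | h1
      · nlinarith
      · nlinarith
    rw [this, mul_zero] at hk
    omega
  · obtain ⟨k, hk⟩ := h.symm.dvd
    exfalso
    rcases le_or_gt k 0 with h1 | h1
    · have : (r : ℤ) + r' ≤ 0 := by nlinarith
      omega
    · have : 4 * P ≤ 4 * P * k := by nlinarith
      omega

lemma co_sq (s : ℕ) (hs : 1 ≤ s) (x y : ℤ)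
    (h : x ≡ y [ZMOD 2 ^ s] ∨ x ≡ -y [ZMOD 2 ^ s]) : x ^ 2 ≡ y ^ 2 [ZMOD 2 ^ (s + 1)] := by
  have key : ∀ a b : ℤ, a ≡ b [ZMOD 2 ^ s] → a ^ 2 ≡ b ^ 2 [ZMOD 2 ^ (s + 1)] := by
    intro a b hab
    obtain ⟨k, hk⟩ := hab.symm.dvd
    obtain ⟨u, rfl⟩ := Nat.exists_eq_add_of_le hs
    have ha : a = b + 2 ^ (1 + u) * k := by linarith
    rw [ha]
    apply Int.ModEq.symm
    rw [Int.modEq_iff_dvd]
    refine ⟨b * k + 2 ^ u * k ^ 2, ?_⟩
    have h1 : (2 : ℤ) ^ (1 + u) = 2 * 2 ^ u := by rw [pow_add]; norm_num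
    have h2 : (2 : ℤ) ^ (1 + u + 1) = 4 * 2 ^ u := by rw [pow_succ, h1]; ring
    rw [h1, h2]
    ring
  rcases h with h | h
  · exact key _ _ h
  · have := key _ _ h
    rwa [neg_sq] at this

lemma co_reps_odd {s : ℕ} {c : ℕ} (h : c ∈ reps s) : Odd (c : ℤ) := by
  unfold reps at h
  rw [Finset.mem_filter] at h
  rw [Int.odd_iff]
  exact_mod_cast h.2

/-- The index set of the sum. -/
def co_T (s j : ℕ) (γ : ℤ) : Finset (Fin j → ℕ) :=
  open Classical in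
  (Fintype.piFinset fun _ : Fin j => reps s).filter
    (fun c => 3 * ∑ i : Fin j, (4 : ℤ) ^ (i : ℕ) * (c i : ℤ) ^ 2 ≡ γ [ZMOD 2 ^ (s + 1)])

lemma co_mem (s j : ℕ) (γ : ℤ) (c : Fin j → ℕ) : c ∈ co_T s j γ ↔
    (∀ i, c i ∈ reps s) ∧
      3 * ∑ i : Fin j, (4 : ℤ) ^ (i : ℕ) * (c i : ℤ) ^ 2 ≡ γ [ZMOD 2 ^ (s + 1)] := by
  classical
  unfold co_T
  rw [Finset.mem_filter, Fintype.mem_piFinset]

/-- Multiplication by `d` on the index set. -/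
lemma co_maps (s j : ℕ) (hs : 2 ≤ s) (d : ℤ) (hd : Odd d) (γ : ℤ) (c : Fin j → ℕ)
    (hc : c ∈ co_T s j γ) : (fun i => co_rep s (d * c i)) ∈ co_T s j (d ^ 2 * γ) := by
  rw [co_mem] at hc ⊢
  have h1 : ∀ i, co_rep s (d * c i) ∈ reps s ∧ _ := fun i =>
    co_rep_spec s hs (d * c i) (hd.mul (co_reps_odd (hc.1 i)))
  refine ⟨fun i => (h1 i).1, ?_⟩
  have h2 : ∀ i, ((co_rep s (d * c i) : ℕ) : ℤ) ^ 2 ≡ (d * c i) ^ 2 [ZMOD 2 ^ (s + 1)] :=
    fun i => co_sq s (by omega) _ _ (h1 i).2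
  have h3 : 3 * ∑ i : Fin j, (4 : ℤ) ^ (i : ℕ) * ((co_rep s (d * c i) : ℕ) : ℤ) ^ 2 ≡
      3 * ∑ i : Fin j, (4 : ℤ) ^ (i : ℕ) * (d * c i) ^ 2 [ZMOD 2 ^ (s + 1)] := by
    refine Int.ModEq.mul_left _ ?_
    have h4 : ∀ S : Finset (Fin j), ∑ i ∈ S, (4 : ℤ) ^ (i : ℕ) * ((co_rep s (d * c i) : ℕ) : ℤ) ^ 2 ≡
      ∑ i ∈ S, (4 : ℤ) ^ (i : ℕ) * (d * c i) ^ 2 [ZMOD 2 ^ (s + 1)] := by
      intro S
      classical
      induction S using Finset.induction_on with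
      | empty => exact Int.ModEq.refl _
      | insert a S ha ih =>
        rw [Finset.sum_insert ha, Finset.sum_insert ha]
        exact ((h2 a).mul_left _).add ih
    exact h4 _
  refine h3.trans ?_
  have h5 : 3 * ∑ i : Fin j, (4 : ℤ) ^ (i : ℕ) * (d * c i) ^ 2 =
      d ^ 2 * (3 * ∑ i : Fin j, (4 : ℤ) ^ (i : ℕ) * (c i : ℤ) ^ 2) := by
    rw [Finset.mul_sum, Finset.mul_sum, Finset.mul_sum]
    refine Finset.sum_congr rfl fun i _ => ?_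
    ring
  rw [h5]
  exact hc.2.mul_left _

lemma co_inv (s : ℕ) (hs : 2 ≤ s) (d d' : ℤ) (hd : Odd d) (hd' : Odd d')
    (hdd : d * d' ≡ 1 [ZMOD 2 ^ s]) (c : ℕ) (hc : c ∈ reps s) :
    co_rep s (d' * co_rep s (d * c)) = c := by
  have ho := co_reps_odd hc
  have h1 := co_rep_spec s hs (d * c) (hd.mul ho)
  have h2 := co_rep_spec s hs (d' * co_rep s (d * c)) (hd'.mul (co_reps_odd h1.1))
  apply co_unique s hs _ _ h2.1 hc
  have h3 : d' * (co_rep s (d * c) : ℤ) ≡ c [ZMOD 2 ^ s] ∨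
      d' * (co_rep s (d * c) : ℤ) ≡ -c [ZMOD 2 ^ s] := by
    have h5 : d' * (d * c) ≡ c [ZMOD 2 ^ s] := by
      have h6 := hdd.mul_right (c : ℤ)
      rw [one_mul] at h6
      have h7 : d' * (d * c) = d * d' * c := by ring
      rw [h7]
      exact h6
    rcases h1.2 with h4 | h4
    · left
      exact (h4.mul_left d').trans h5
    · right
      have h8 := h4.mul_left d'
      have h9 : d' * -(d * (c : ℤ)) = -(d' * (d * c)) := by ring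
      rw [h9] at h8
      exact h8.trans h5.neg
  rcases h2.2 with h4 | h4
  · rcases h3 with h5 | h5
    · exact Or.inl (h4.trans h5)
    · exact Or.inr (h4.trans h5)
  · rcases h3 with h5 | h5
    · exact Or.inr (h4.trans h5.neg)
    · left
      have h6 := h5.neg
      rw [neg_neg] at h6
      exact h4.trans h6

lemma co_exists_inv (n : ℕ) (d : ℤ) (hd : Odd d) : ∃ d' : ℤ, Odd d' ∧ d * d' ≡ 1 [ZMOD 2 ^ (n + 1)] := by
  have hc : IsCoprime d ((2 : ℤ) ^ (n + 1)) := by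
    apply IsCoprime.pow_right
    obtain ⟨k, hk⟩ := hd
    exact ⟨1, -k, by rw [hk]; ring⟩
  obtain ⟨a, b, hab⟩ := hc
  refine ⟨a, ?_, ?_⟩
  · by_contra ha
    rw [Int.not_odd_iff_even] at ha
    obtain ⟨k, hk⟩ := ha
    have h1 : (2 : ℤ) ∣ 1 := by
      refine ⟨k * d + b * 2 ^ n, ?_⟩
      rw [← hab, hk, pow_succ]
      ring
    omega
  · rw [mul_comm]
    apply Int.ModEq.symm
    rw [Int.modEq_iff_dvd]
    refine ⟨-b, ?_⟩
    linarith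

/-- Reindexing of the sum. -/
lemma co_sum (s j : ℕ) (hs : 2 ≤ s) (d : ℤ) (hd : Odd d) (γ : ℤ) {A : Type*} [CommRing A]
    (f : ℕ → A) :
    ∑ c ∈ co_T s j γ, ∏ i : Fin j, f (co_rep s (d * c i)) ^ (4 ^ (i : ℕ)) =
      ∑ c ∈ co_T s j (d ^ 2 * γ), ∏ i : Fin j, f (c i) ^ (4 ^ (i : ℕ)) := by
  obtain ⟨d', hd', hdd⟩ := co_exists_inv s d hd
  have hdd2 : d * d' ≡ 1 [ZMOD 2 ^ s] := by
    refine hdd.of_dvd ?_
    exact pow_dvd_pow 2 (by omega)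
  have hdd3 : d' * d ≡ 1 [ZMOD 2 ^ s] := by rwa [mul_comm] at hdd2
  refine Finset.sum_nbij' (fun c i => co_rep s (d * c i)) (fun c i => co_rep s (d' * c i)) ?_ ?_ ?_ ?_ ?_
  · intro c hc
    exact co_maps s j hs d hd γ c hc
  · intro c hc
    have h1 := co_maps s j hs d' hd' (d ^ 2 * γ) c hc
    rw [co_mem] at h1 ⊢
    refine ⟨h1.1, h1.2.trans ?_⟩
    have h2 : d' ^ 2 * (d ^ 2 * γ) = (d * d') ^ 2 * γ := by ring
    rw [h2]
    have h3 := (hdd.pow 2).mul_right γ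
    rwa [one_pow, one_mul] at h3
  · intro c hc
    rw [co_mem] at hc
    funext i
    exact co_inv s hs d d' hd hd' hdd2 (c i) (hc.1 i)
  · intro c hc
    rw [co_mem] at hc
    funext i
    exact co_inv s hs d' d hd' hd hdd3 (c i) (hc.1 i)
  · intro c hc
    rfl

lemma co_Ex_mem (hF1 : F1_stmt) (hME : ME_stmt) : Ex ∈ MM := by
  refine mem_MM_of_pow (n := 3) (by norm_num) ?_
  rw [hF1.2.2.2]
  exact hME 3 1 DDk (by decide) DDk_mem

lemma co_Ex_ne (hF1 : F1_stmt) : Ex ≠ 0 := by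
  intro h
  have h1 := hF1.2.2.1
  rw [h, mul_zero] at h1
  exact zero_ne_one h1

/-- The identity `CO1` at a vertex. -/
lemma co_vertex (hF1 : F1_stmt) (hME : ME_stmt) (hTHM : THM_stmt) (hUGM : UGM_stmt)
    (hCO1 : CO1_stmt) (Φ : Frame) (e s j : ℕ) (ζ : kkˣ) (he : Odd e) (hs : 2 ≤ s)
    (hj : s + 1 ≤ 2 * j) (γ : ℤ) :
    Φ.cl (sig e ζ (Ug (s + 1) γ)) * Φ.cl (sig e ζ Ex) ^ (4 ^ j) =
      ∑ c ∈ co_T s j γ, ∏ i : Fin j, Φ.X (3 * e, ζ ^ 3) s (c i) ^ (4 ^ (i : ℕ)) := by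
  have he0 : e ≠ 0 := by rintro rfl; exact absurd he (by decide)
  have h1 := congrArg (sig e ζ) (hCO1 s j γ hs hj)
  rw [map_mul, map_pow, map_sum] at h1
  have hEx : sig e ζ Ex ∈ MM := hME e ζ Ex he (co_Ex_mem hF1 hME)
  have hUg : sig e ζ (Ug (s + 1) γ) ∈ MM := hME e ζ _ he (hUGM s γ hs)
  rw [← Φ.cl_pow hEx, ← Φ.cl_mul _ hUg _ (pow_mem hEx _), h1]
  have hodd : Odd (3 * e) := (by decide : Odd 3).mul he
  have hmem : ∀ (c : Fin j → ℕ), (∀ i, c i ∈ reps s) → ∀ i : Fin j,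
      sig (3 * e) (ζ ^ 3) (th s (c i)) ∈ MM := fun c hc i =>
    hME _ _ _ hodd (hTHM s (c i) hs (co_reps_odd (hc i)))
  have h2 : ∀ c ∈ co_T s j γ, sig e ζ (∏ i : Fin j, (sig 3 1 (th s (c i))) ^ (4 ^ (i : ℕ))) =
      ∏ i : Fin j, (sig (3 * e) (ζ ^ 3) (th s (c i))) ^ (4 ^ (i : ℕ)) := by
    intro c _
    rw [map_prod]
    refine Finset.prod_congr rfl fun i _ => ?_
    rw [map_pow, sig_sig he0 (by norm_num), one_mul, mul_comm e 3]
  have h3 : ∑ c ∈ co_T s j γ, sig e ζ (∏ i : Fin j, (sig 3 1 (th s (c i))) ^ (4 ^ (i : ℕ))) =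
      ∑ c ∈ co_T s j γ, ∏ i : Fin j, (sig (3 * e) (ζ ^ 3) (th s (c i))) ^ (4 ^ (i : ℕ)) :=
    Finset.sum_congr rfl h2
  have h4 := congrArg Φ.cl h3
  have h5 : Φ.cl (∑ c ∈ co_T s j γ, ∏ i : Fin j, (sig (3 * e) (ζ ^ 3) (th s (c i))) ^ (4 ^ (i : ℕ))) =
      ∑ c ∈ co_T s j γ, ∏ i : Fin j, Φ.X (3 * e, ζ ^ 3) s (c i) ^ (4 ^ (i : ℕ)) := by
    rw [Φ.cl_sum]
    · refine Finset.sum_congr rfl fun c hc => ?_
      rw [co_mem] at hc
      rw [Φ.cl_prod]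
      · refine Finset.prod_congr rfl fun i _ => ?_
        rw [Φ.cl_pow (hmem c hc.1 i)]
        rfl
      · intro i _
        exact pow_mem (hmem c hc.1 i) _
    · intro c hc
      rw [co_mem] at hc
      exact prod_mem fun i _ => pow_mem (hmem c hc.1 i) _
  exact h4.trans h5

lemma co_cube {A : Type} [Field A] [Algebra kk A] (x : A) (hx : x ^ 3 = 1) :
    ∃ θ : kk, θ ≠ 0 ∧ algebraMap kk A θ = x := by
  have hint : IsIntegral kk x := by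
    refine ⟨X ^ 3 - 1, ?_, ?_⟩
    · exact monic_X_pow_sub_C 1 (by norm_num)
    · simp [hx]
  have hdeg : (minpoly kk x).degree = 1 :=
    IsAlgClosed.degree_eq_one_of_irreducible kk (minpoly.irreducible hint)
  obtain ⟨θ, hθ⟩ := minpoly.mem_range_of_degree_eq_one kk x hdeg
  refine ⟨θ, ?_, hθ⟩
  rintro rfl
  rw [map_zero] at hθ
  rw [← hθ] at hx
  norm_num at hx

/-- Module CO. -/
theorem CO_of (hF1 : F1_stmt) (hME : ME_stmt) (hTHM : THM_stmt) (hUGM : UGM_stmt)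
    (hCO1 : CO1_stmt) : CO_stmt := by
  intro Φ e e' s ζ ζ' g d he he' hs hd hgD hgX
  have he0 : e ≠ 0 := by rintro rfl; exact absurd he (by decide)
  have he0' : e' ≠ 0 := by rintro rfl; exact absurd he' (by decide)
  have hcube : ∀ (a : ℕ) (ξ : kkˣ), Odd a →
      Φ.cl (sig a ξ Ex) ^ 3 = Φ.D (3 * a, ξ ^ 3) ∧ Φ.cl (sig a ξ Ex) ≠ 0 := by
    intro a ξ ha
    have ha0 : a ≠ 0 := by rintro rfl; exact absurd ha (by decide)
    have hEx : sig a ξ Ex ∈ MM := hME a ξ Ex ha (co_Ex_mem hF1 hME)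
    refine ⟨?_, ?_⟩
    · rw [← Φ.cl_pow hEx, ← map_pow, hF1.2.2.2, sig_sig ha0 (by norm_num), one_mul, mul_comm a 3]
      rfl
    · intro h
      have h2 := Φ.cl_inj _ hEx h
      rw [← map_zero (sig a ξ)] at h2
      exact co_Ex_ne hF1 (sig_injective _ _ h2)
  obtain ⟨hE, hE0⟩ := hcube e ζ he
  obtain ⟨hE', hE0'⟩ := hcube e' ζ' he'
  set E := Φ.cl (sig e ζ Ex) with hEdef
  set E' := Φ.cl (sig e' ζ' Ex) with hEdef'
  have h1 : (g E / E') ^ 3 = 1 := by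
    rw [div_pow, ← map_pow, hE, hgD, hE']
    apply div_self
    rw [← hE']
    exact pow_ne_zero _ hE0'
  obtain ⟨θ₀, hθ0, hθ⟩ := co_cube _ h1
  have h2 : g E = algebraMap kk Φ.A θ₀ * E' := by
    rw [hθ, div_mul_cancel₀ _ hE0']
  have hj : s + 1 ≤ 2 * (s + 1) := by omega
  refine ⟨(θ₀ ^ (4 ^ (s + 1)))⁻¹, inv_ne_zero (pow_ne_zero _ hθ0), fun γ => ?_⟩
  have h3 := congrArg g (co_vertex hF1 hME hTHM hUGM hCO1 Φ e s (s + 1) ζ he hs hj γ)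
  rw [map_mul, map_pow, map_sum, ← hEdef, h2] at h3
  have h4 : ∑ c ∈ co_T s (s + 1) γ, g (∏ i : Fin (s + 1), Φ.X (3 * e, ζ ^ 3) s (c i) ^ (4 ^ (i : ℕ))) =
      ∑ c ∈ co_T s (s + 1) γ, ∏ i : Fin (s + 1),
        (fun n : ℕ => Φ.X (3 * e', ζ' ^ 3) s n) (co_rep s (d * c i)) ^ (4 ^ (i : ℕ)) := by
    refine Finset.sum_congr rfl fun c hc => ?_
    rw [co_mem] at hc
    rw [map_prod]
    refine Finset.prod_congr rfl fun i _ => ?_
    rw [map_pow, hgX _ (co_reps_odd (hc.1 i))]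
    congr 1
    have h5 := co_rep_spec s hs (d * c i) (hd.mul (co_reps_odd (hc.1 i)))
    exact (Φ.X_congr' _ s h5.2).symm
  have h8 := co_sum s (s + 1) hs d hd γ (fun n : ℕ => Φ.X (3 * e', ζ' ^ 3) s n)
  rw [h4, h8,
    ← co_vertex hF1 hME hTHM hUGM hCO1 Φ e' s (s + 1) ζ' he' hs hj (d ^ 2 * γ), ← hEdef',
    mul_pow, ← mul_assoc] at h3
  have h6 := mul_right_cancel₀ (pow_ne_zero _ hE0') h3
  rw [← h6, map_inv₀, map_pow]
  have h7 : algebraMap kk Φ.A θ₀ ^ 4 ^ (s + 1) ≠ 0 := by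
    apply pow_ne_zero
    rw [Ne, map_eq_zero]
    exact hθ0
  field_simp

end Pool.Agent.helper7.IG
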