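import Pool.Agent.helper7.IG.Stmt1

/-!
# IG, module MA: the characteristic polynomial of multiplication by a power series
-/

set_option autoImplicit false

open Polynomial

noncomputable section

namespace Pool.Agent.helper7.IG

lemma ma_map {R S : Type} [CommRing R] [CommRing S] (f : R →+* S) (p : ℕ) (F : PowerSeries R) :
    (mulMat p F).map (PowerSeries.map f) = mulMat p (PowerSeries.map f F) := by
  ext k i n
  simp only [mulMat, Matrix.map_apply, Matrix.of_apply]
  split_ifs with h
  · simp only [PowerSeries.coeff_map, PowerSeries.coeff_mk]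
  · rw [map_mul, PowerSeries.map_X]
    congr 2

lemma ma_split {K : Type} [CommRing K] (p : ℕ) (hp : p ≠ 0) (F : PowerSeries K) (i : Fin p) :
    ∑ k : Fin p, (PowerSeries.X : PowerSeries K) ^ (k : ℕ) *
      PowerSeries.expand p hp (mulMat p F k i) = F * PowerSeries.X ^ (i : ℕ) := by
  ext n
  rw [map_sum]
  have hp0 : 0 < p := Nat.pos_of_ne_zero hp
  have hlt : n % p < p := Nat.mod_lt _ hp0
  rw [Finset.sum_eq_single (⟨n % p, hlt⟩ : Fin p)]
  · simp only
    rw [mul_comm (PowerSeries.X ^ (n % p)), PowerSeries.coeff_mul_X_pow',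
      PowerSeries.coeff_mul_X_pow', if_pos (Nat.mod_le _ _), PowerSeries.coeff_expand]
    have hsub : n - n % p = p * (n / p) := by
      have := Nat.div_add_mod n p
      omega
    rw [hsub, if_pos (Dvd.intro _ rfl), Nat.mul_div_cancel_left _ hp0]
    simp only [mulMat, Matrix.of_apply]
    have hd := Nat.div_add_mod n p
    have hi := i.2
    split_ifs with h1 h2 h2
    · rw [PowerSeries.coeff_mk]
      have h1' : (i : ℕ) ≤ n % p := h1
      have h5 : p * (n / p) + (n % p - (i : ℕ)) = n - (i : ℕ) := by omega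
      exact congrArg (fun t => PowerSeries.coeff t F) h5
    · exact absurd (le_trans h1 (Nat.mod_le _ _)) h2
    · have h3 : n / p ≠ 0 := by
        intro h4
        rw [h4] at hd
        omega
      obtain ⟨m, hm⟩ := Nat.exists_eq_succ_of_ne_zero h3
      rw [hm, PowerSeries.coeff_succ_X_mul, PowerSeries.coeff_mk]
      rw [hm, Nat.mul_succ] at hd
      have h1' : ¬ (i : ℕ) ≤ n % p := h1
      have h5 : p * m + (p + n % p - (i : ℕ)) = n - (i : ℕ) := by omega
      exact congrArg (fun t => PowerSeries.coeff t F) h5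
    · have h3 : n / p = 0 := by
        by_contra h4
        obtain ⟨m, hm⟩ := Nat.exists_eq_succ_of_ne_zero h4
        rw [hm, Nat.mul_succ] at hd
        omega
      rw [h3, PowerSeries.coeff_zero_X_mul]
  · intro k _ hk
    rw [mul_comm, PowerSeries.coeff_mul_X_pow']
    split_ifs with h
    · apply PowerSeries.coeff_expand_of_not_dvd
      intro hdvd
      apply hk
      apply Fin.ext
      simp only
      have h1 : n % p = (k : ℕ) % p := by
        have := (Nat.modEq_iff_dvd' h).mpr hdvd
        exact this.symm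
      rw [h1, Nat.mod_eq_of_lt k.2]
    · rfl
  · intro h
    exact absurd (Finset.mem_univ _) h

lemma ma_rescale_expand {K : Type} [CommRing K] (p : ℕ) (hp : p ≠ 0) (c : K) (hc : c ^ p = 1)
    (G : PowerSeries K) :
    PowerSeries.rescale c (PowerSeries.expand p hp G) = PowerSeries.expand p hp G := by
  ext n
  rw [PowerSeries.coeff_rescale, PowerSeries.coeff_expand]
  split_ifs with h
  · obtain ⟨m, rfl⟩ := h
    rw [pow_mul, hc, one_pow, one_mul]
  · rw [mul_zero]

/-- The Vandermonde matrix. -/
def ma_V {K : Type} [CommRing K] (p : ℕ) (ω : K) : Matrix (Fin p) (Fin p) (PowerSeries K) :=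
  Matrix.vandermonde fun j : Fin p => PowerSeries.C (ω ^ (j : ℕ)) * PowerSeries.X

lemma ma_comm {K : Type} [Field K] (p : ℕ) (hp : p ≠ 0) (ω : K) (hω : IsPrimitiveRoot ω p)
    (F : PowerSeries K) :
    ma_V p ω * (mulMat p F).map (PowerSeries.expand p hp).toRingHom =
      Matrix.diagonal (fun j : Fin p => PowerSeries.rescale (ω ^ (j : ℕ)) F) * ma_V p ω := by
  ext1 j i
  rw [Matrix.mul_apply, Matrix.diagonal_mul]
  simp only [ma_V, Matrix.vandermonde_apply, Matrix.map_apply]
  have h := congrArg (PowerSeries.rescale (ω ^ (j : ℕ))) (ma_split p hp F i)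
  rw [map_sum, map_mul, map_pow, PowerSeries.rescale_X] at h
  rw [← h]
  refine Finset.sum_congr rfl fun k _ => ?_
  rw [map_mul (PowerSeries.rescale (ω ^ (j : ℕ))), map_pow (PowerSeries.rescale (ω ^ (j : ℕ))),
    PowerSeries.rescale_X, ma_rescale_expand]
  · rfl
  · rw [← pow_mul, mul_comm, pow_mul, hω.pow_eq_one, one_pow]

lemma ma_det_ne {K : Type} [Field K] (p : ℕ) (ω : K) (hω : IsPrimitiveRoot ω p) :
    (ma_V p ω).det ≠ 0 := by
  unfold ma_V
  rw [Matrix.det_vandermonde_ne_zero_iff]
  intro i j hij
  simp only at hij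
  have h1 := congrArg (PowerSeries.coeff 1) hij
  rw [PowerSeries.coeff_C_mul, PowerSeries.coeff_C_mul, PowerSeries.coeff_one_X, mul_one,
    mul_one] at h1
  exact Fin.ext (hω.pow_inj i.2 j.2 h1)

/-- Module MA. -/
theorem MA : MA_stmt := by
  refine ⟨?_, ?_⟩
  · intro R S _ _ f p F
    rw [← ma_map, Matrix.charpoly_map]
  · intro K _ p hp ω F hω
    rw [← Matrix.charpoly_map]
    have hcomm := ma_comm p hp ω hω F
    set V := ma_V p ω with hV
    set M := (mulMat p F).map (PowerSeries.expand p hp).toRingHom with hM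
    set D := Matrix.diagonal (fun j : Fin p => PowerSeries.rescale (ω ^ (j : ℕ)) F) with hD
    have h1 : (C : PowerSeries K →+* (PowerSeries K)[X]).mapMatrix V * M.charmatrix =
        D.charmatrix * (C : PowerSeries K →+* (PowerSeries K)[X]).mapMatrix V := by
      unfold Matrix.charmatrix
      rw [mul_sub, sub_mul, ← map_mul, ← map_mul, hcomm]
      congr 1
      exact ((Matrix.scalar_commute _ (fun r => Commute.all _ _) _).eq).symm
    have h2 := congrArg Matrix.det h1
    rw [Matrix.det_mul, Matrix.det_mul, mul_comm] at h2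
    have h3 : ((C : PowerSeries K →+* (PowerSeries K)[X]).mapMatrix V).det ≠ 0 := by
      rw [← RingHom.map_det]
      exact (map_ne_zero_iff _ C_injective).mpr (ma_det_ne p ω hω)
    have h4 := mul_right_cancel₀ h3 h2
    have h5 : M.charpoly = D.charpoly := h4
    rw [h5, hD, Matrix.charpoly_diagonal]
    exact (Finset.prod_range (fun j => (X - C (PowerSeries.rescale (ω ^ j) F)))).symm

end Pool.Agent.helper7.IG
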