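import Pool.Agent.helper7.IG.Stmt1

/-!
# IG, module MB1: a modular form of level one from its transformation laws
-/

set_option autoImplicit false

open Polynomial UpperHalfPlane ModularForm
open scoped MatrixGroups Real Manifold

noncomputable section

namespace Pool.Agent.helper7.IG

/-- A function on the complex plane restricted to the upper half plane. -/
def mb1_fun (G : ℂ → ℂ) (τ : ℍ) : ℂ := G τ

set_option backward.isDefEq.respectTransparency.types false in
lemma mb1_T (k : ℕ) (G : ℂ → ℂ) (hT : ∀ z : ℂ, 0 < z.im → G (z + 1) = G z) :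
    (mb1_fun G ∣[(k : ℤ)] ModularGroup.T) = mb1_fun G := by
  ext z
  rw [SL_slash_apply, denom, modular_T_smul, ModularGroup.T]
  simp only [mb1_fun]
  have h := hT z z.im_pos
  simpa [add_comm] using h

set_option backward.isDefEq.respectTransparency.types false in
lemma mb1_S (k : ℕ) (G : ℂ → ℂ) (hS : ∀ z : ℂ, 0 < z.im → G (-1 / z) = z ^ k * G z) :
    (mb1_fun G ∣[(k : ℤ)] ModularGroup.S) = mb1_fun G := by
  ext z
  have h := hS z z.im_pos
  rw [SL_slash_apply, UpperHalfPlane.modular_S_smul]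
  have hz : (z : ℂ) ^ k ≠ 0 := pow_ne_zero _ (ne_zero z)
  have h2 : G (-(z : ℂ))⁻¹ = (z : ℂ) ^ k * G z := by
    rw [← h]; congr 1; rw [neg_div, one_div, inv_neg]
  simp only [mb1_fun]
  have h3 : denom (ModularGroup.S : GL (Fin 2) ℝ) z = z := by simp [denom, ModularGroup.S]
  rw [h3, zpow_neg, zpow_natCast]
  change G (-(z : ℂ))⁻¹ * ((z : ℂ) ^ k)⁻¹ = _
  rw [h2]
  field_simp

lemma mb1_slash (k : ℕ) (G : ℂ → ℂ) (hT : ∀ z : ℂ, 0 < z.im → G (z + 1) = G z)
    (hS : ∀ z : ℂ, 0 < z.im → G (-1 / z) = z ^ k * G z) (γ : SL(2, ℤ)) :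
    (mb1_fun G ∣[(k : ℤ)] γ) = mb1_fun G :=
  SlashInvariantForm.slash_action_generators_SL2Z (mb1_S k G hS) (mb1_T k G hT) γ

lemma mb1_mdiff (G : ℂ → ℂ) (hG : DifferentiableOn ℂ G {z | 0 < z.im}) :
    MDiff (mb1_fun G) := by
  rw [UpperHalfPlane.mdifferentiable_iff]
  refine hG.congr fun z hz => ?_
  simp [mb1_fun, ofComplex_apply_of_im_pos hz]

/-- The modular form. -/
def mb1_form (k : ℕ) (G : ℂ → ℂ) (a : ℕ → ℂ) (hG : DifferentiableOn ℂ G {z | 0 < z.im})
    (hT : ∀ z : ℂ, 0 < z.im → G (z + 1) = G z)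
    (hS : ∀ z : ℂ, 0 < z.im → G (-1 / z) = z ^ k * G z)
    (hsum : ∀ z : ℂ, 0 < z.im → HasSum (fun n => a n * Function.Periodic.qParam 1 z ^ n) (G z)) :
    ModularForm 𝒮ℒ (k : ℤ) where
  toFun := mb1_fun G
  slash_action_eq' := by
    rintro _ ⟨γ, rfl⟩
    exact mb1_slash k G hT hS γ
  holo' := mb1_mdiff G hG
  bdd_at_cusps' {c} hc := by
    rw [Subgroup.IsArithmetic.isCusp_iff_isCusp_SL2Z] at hc
    rw [OnePoint.isBoundedAt_iff_forall_SL2Z hc]
    intro γ _
    rw [mb1_slash k G hT hS γ]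
    exact isBoundedAtImInfty_of_hasSum_qExpansion one_pos (fun τ => hsum τ τ.im_pos)

/-- Module MB1. -/
theorem MB1 : MB1_stmt := by
  intro k G a hG hT hS hsum
  refine ⟨mb1_form k G a hG hT hS hsum, fun n => ?_⟩
  have h := ModularFormClass.qExpansion_coeff_unique (f := mb1_form k G a hG hT hS hsum) one_pos
    one_mem_strictPeriods_SL (fun τ => hsum τ τ.im_pos) n
  exact h.symm

end Pool.Agent.helper7.IG
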